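import Pool.Agent.Helper44.HD.GoalsC

/-!
# Project HD (MP_e5f486_ag), packet GA: projective dimension over `A ⊗ T`
-/

set_option autoImplicit false

open scoped TensorProduct
open CategoryTheory

namespace Pool.Agent.Helper41.HD

open Pool.Agent.Helper44.HD

section pd

variable {k B : Type} [Field k] [Ring B] [Algebra k B]
variable {V W U : Type} [AddCommGroup V] [Module k V] [AddCommGroup W] [Module k W]
  [AddCommGroup U] [Module k U]

/-- the projective dimension of the representation `ρ` of `B` is less than `n` -/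
def PDr (ρ : B →ₐ[k] Module.End k V) (n : ℕ) : Prop :=
  let : Module B V := Module.compHom V ρ.toRingHom
  HasProjectiveDimensionLT (ModuleCat.of B V) n

/-- equivariant maps -/
def Eqv (ρ : B →ₐ[k] Module.End k V) (σ : B →ₐ[k] Module.End k W) (f : V →ₗ[k] W) : Prop :=
  ∀ b v, f (ρ b v) = σ b (f v)

theorem PDr.mono {ρ : B →ₐ[k] Module.End k V} {n m : ℕ} (h : PDr ρ n) (hnm : n ≤ m) : PDr ρ m := by
  let : Module B V := Module.compHom V ρ.toRingHom
  have h' : HasProjectiveDimensionLT (ModuleCat.of B V) n := h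
  exact hasProjectiveDimensionLT_of_ge _ n m hnm

theorem PDr.retract {ρ : B →ₐ[k] Module.End k V} {σ : B →ₐ[k] Module.End k W} {n : ℕ}
    (h : PDr σ n) (i : V →ₗ[k] W) (p : W →ₗ[k] V) (hi : Eqv ρ σ i) (hp : Eqv σ ρ p)
    (hpi : ∀ v, p (i v) = v) : PDr ρ n := by
  let mV : Module B V := Module.compHom V ρ.toRingHom
  let mW : Module B W := Module.compHom W σ.toRingHom
  have h' : HasProjectiveDimensionLT (ModuleCat.of B W) n := h
  let i' : V →ₗ[B] W := { toFun := i, map_add' := i.map_add, map_smul' := fun b v => hi b v }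
  let p' : W →ₗ[B] V := { toFun := p, map_add' := p.map_add, map_smul' := fun b v => hp b v }
  have r : Retract (ModuleCat.of B V) (ModuleCat.of B W) :=
    { i := ModuleCat.ofHom i'
      r := ModuleCat.ofHom p'
      retract := by
        ext v
        exact hpi v }
  exact r.hasProjectiveDimensionLT n

theorem ses_both {ρ : B →ₐ[k] Module.End k V} {σ : B →ₐ[k] Module.End k W}
    {τ : B →ₐ[k] Module.End k U} (i : V →ₗ[k] W) (p : W →ₗ[k] U) (hi : Eqv ρ σ i)
    (hp : Eqv σ τ p) (inj : Function.Injective i) (surj : Function.Surjective p)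
    (ex : Function.Exact i p) (n : ℕ) :
    (PDr ρ n → PDr σ (n + 1) → PDr τ (n + 1)) ∧ (PDr σ n → PDr τ (n + 1) → PDr ρ n) := by
  let mV : Module B V := Module.compHom V ρ.toRingHom
  let mW : Module B W := Module.compHom W σ.toRingHom
  let mU : Module B U := Module.compHom U τ.toRingHom
  let i' : V →ₗ[B] W := { toFun := i, map_add' := i.map_add, map_smul' := fun b v => hi b v }
  let p' : W →ₗ[B] U := { toFun := p, map_add' := p.map_add, map_smul' := fun b v => hp b v }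
  have h0 : p' ∘ₗ i' = 0 := by
    ext v
    exact (ex (i v)).2 ⟨v, rfl⟩
  let S : ShortComplex (ModuleCat B) :=
    { X₁ := ModuleCat.of B V
      X₂ := ModuleCat.of B W
      X₃ := ModuleCat.of B U
      f := ModuleCat.ofHom i'
      g := ModuleCat.ofHom p'
      zero := by
        ext v
        exact LinearMap.congr_fun h0 v }
  have hS : S.ShortExact :=
    { exact := by
        rw [ShortComplex.ShortExact.moduleCat_exact_iff_function_exact]
        exact ex
      mono_f := (ModuleCat.mono_iff_injective _).2 inj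
      epi_g := (ModuleCat.epi_iff_surjective _).2 surj }
  exact ⟨fun h1 h2 => hS.hasProjectiveDimensionLT_X₃ n h1 h2,
    fun h2 h3 => hS.hasProjectiveDimensionLT_X₁ n h2 h3⟩

theorem pdr_lsmul [Module B V] [IsScalarTower k B V] (n : ℕ) :
    PDr (Algebra.lsmul k k V : B →ₐ[k] Module.End k V) n ↔
      HasProjectiveDimensionLT (ModuleCat.of B V) n := by
  unfold PDr
  have : Module.compHom V (Algebra.lsmul k k V : B →ₐ[k] Module.End k V).toRingHom
      = ‹Module B V› := by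
    refine Module.ext' _ _ fun r m => rfl
  rw [this]

variable (k B) in
/-- the free module -/
noncomputable def frR (Y : Type) : B →ₐ[k] Module.End k (Y →₀ B) := Algebra.lsmul k k (Y →₀ B)

theorem frR_single (b : B) {Y : Type} (z : Y) (c : B) :
    frR k B Y b (Finsupp.single z c) = Finsupp.single z (b * c) := by
  change b • Finsupp.single z c = _
  rw [Finsupp.smul_single, smul_eq_mul]

theorem pdr_free (Y : Type) : PDr (frR k B Y) 1 := by
  unfold frR
  rw [pdr_lsmul]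
  exact projective_iff_hasProjectiveDimensionLT_one.1
    ((IsProjective.iff_projective (Y →₀ B)).1 inferInstance)

/-- the projection from the free module -/
noncomputable def fpi (ρ : B →ₐ[k] Module.End k V) : (V →₀ B) →ₗ[k] V :=
  Finsupp.lsum k fun v => (LinearMap.applyₗ (R := k) v).comp ρ.toLinearMap

theorem fpi_single (ρ : B →ₐ[k] Module.End k V) (v : V) (b : B) :
    fpi ρ (Finsupp.single v b) = ρ b v := by
  simp [fpi]

theorem fpi_eqv (ρ : B →ₐ[k] Module.End k V) : Eqv (frR k B V) ρ (fpi ρ) := by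
  intro b f
  induction f using Finsupp.induction_linear with
  | zero => simp
  | add f g hf hg => simp only [map_add, hf, hg]
  | single v c =>
    rw [fpi_single, frR_single, fpi_single, map_mul]
    rfl

theorem fpi_surj (ρ : B →ₐ[k] Module.End k V) : Function.Surjective (fpi ρ) := fun v =>
  ⟨Finsupp.single v 1, by rw [fpi_single, map_one]; rfl⟩

theorem exists_section {ρ : B →ₐ[k] Module.End k V} (h : PDr ρ 1) :
    ∃ s : V →ₗ[k] (V →₀ B), Eqv ρ (frR k B V) s ∧ ∀ v, fpi ρ (s v) = v := by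
  let mV : Module B V := Module.compHom V ρ.toRingHom
  have hs : ∀ (b : B) (v : V), b • v = ρ b v := fun b v => rfl
  have : IsScalarTower k B V := ⟨fun c b v => by
    rw [hs, hs, map_smul]; rfl⟩
  have h' : HasProjectiveDimensionLT (ModuleCat.of B V) 1 := h
  have : Module.Projective B V :=
    (IsProjective.iff_projective V).2 (projective_iff_hasProjectiveDimensionLT_one.2 h')
  let p' : (V →₀ B) →ₗ[B] V :=
    { toFun := fpi ρ
      map_add' := (fpi ρ).map_add
      map_smul' := fun b v => fpi_eqv ρ b v }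
  obtain ⟨s, hs'⟩ := Module.projective_lifting_property p' (LinearMap.id) (fpi_surj ρ)
  refine ⟨s.restrictScalars k, fun b v => ?_, fun v => ?_⟩
  · exact s.map_smul b v
  · exact LinearMap.congr_fun hs' v

/-- the free module with basis `Y` -/
def Fr (B Y : Type) [Ring B] : Type := Y →₀ B

noncomputable instance (Y : Type) : AddCommGroup (Fr B Y) := inferInstanceAs (AddCommGroup (Y →₀ B))

noncomputable instance (Y : Type) : Module k (Fr B Y) := inferInstanceAs (Module k (Y →₀ B))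

variable (k B) in
/-- the free module -/
noncomputable def frW (Y : Type) : B →ₐ[k] Module.End k (Fr B Y) := frR k B Y

theorem pdr_freeW (Y : Type) : PDr (frW k B Y) 1 := pdr_free Y

/-- the projection from the free module -/
noncomputable def fpw (ρ : B →ₐ[k] Module.End k V) : Fr B V →ₗ[k] V := fpi ρ

theorem fpw_eqv (ρ : B →ₐ[k] Module.End k V) : Eqv (frW k B V) ρ (fpw ρ) := fpi_eqv ρ

theorem fpw_surj (ρ : B →ₐ[k] Module.End k V) : Function.Surjective (fpw ρ) := fpi_surj ρ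

theorem exists_sectionW {ρ : B →ₐ[k] Module.End k V} (h : PDr ρ 1) :
    ∃ s : V →ₗ[k] Fr B V, Eqv ρ (frW k B V) s ∧ ∀ v, fpw ρ (s v) = v := exists_section h

/-- subrepresentation -/
def subRep (ρ : B →ₐ[k] Module.End k V) (S : Submodule k V) (hS : ∀ b, ∀ v ∈ S, ρ b v ∈ S) :
    B →ₐ[k] Module.End k S where
  toFun b := (ρ b).restrict (hS b)
  map_one' := by ext v; simp
  map_mul' b c := by ext v; simp
  map_zero' := by ext v; simp
  map_add' b c := by ext v; simp
  commutes' c := by ext v; simp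

theorem subRep_eqv (ρ : B →ₐ[k] Module.End k V) (S : Submodule k V)
    (hS : ∀ b, ∀ v ∈ S, ρ b v ∈ S) : Eqv (subRep ρ S hS) ρ S.subtype := fun _ _ => rfl

theorem exists_ker {σ : B →ₐ[k] Module.End k W} {τ : B →ₐ[k] Module.End k U}
    (p : W →ₗ[k] U) (hp : Eqv σ τ p) :
    ∃ (K : Type) (_ : AddCommGroup K) (_ : Module k K) (κ : B →ₐ[k] Module.End k K)
      (i : K →ₗ[k] W), Eqv κ σ i ∧ Function.Injective i ∧ Function.Exact i p := by
  have hK : ∀ b, ∀ v ∈ LinearMap.ker p, σ b v ∈ LinearMap.ker p := fun b v hv => by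
    rw [LinearMap.mem_ker] at hv ⊢
    rw [hp b v, hv, map_zero]
  exact ⟨LinearMap.ker p, inferInstance, inferInstance, subRep σ (LinearMap.ker p) hK,
    (LinearMap.ker p).subtype, subRep_eqv σ _ hK, (LinearMap.ker p).injective_subtype,
    fun v => ⟨fun hv => ⟨⟨v, hv⟩, rfl⟩, fun ⟨w, hw⟩ => by rw [← hw]; exact w.2⟩⟩

/-- quotient representation -/
def quoRep (ρ : B →ₐ[k] Module.End k V) (S : Submodule k V) (hS : ∀ b, ∀ v ∈ S, ρ b v ∈ S) :
    B →ₐ[k] Module.End k (V ⧸ S) where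
  toFun b := S.mapQ S (ρ b) (hS b)
  map_one' := by ext v; simp
  map_mul' b c := by ext v; simp
  map_zero' := by ext v; simp
  map_add' b c := by ext v; simp
  commutes' c := by ext v; simp

theorem quoRep_mk (ρ : B →ₐ[k] Module.End k V) (S : Submodule k V)
    (hS : ∀ b, ∀ v ∈ S, ρ b v ∈ S) (b : B) (v : V) :
    quoRep ρ S hS b (S.mkQ v) = S.mkQ (ρ b v) := rfl

end pd

section out

variable {k A T : Type} [Field k] [Ring A] [Algebra k A] [Ring T] [Algebra k T]
variable {X Y M N : Type} [AddCommGroup X] [Module k X] [AddCommGroup Y] [Module k Y]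
  [AddCommGroup M] [Module k M] [AddCommGroup N] [Module k N]

/-- outer tensor product of representations -/
noncomputable def outR (α : A →ₐ[k] Module.End k X) (β : T →ₐ[k] Module.End k M) :
    A ⊗[k] T →ₐ[k] Module.End k (X ⊗[k] M) :=
  Module.endTensorEndAlgHom.comp (Algebra.TensorProduct.map α β)

theorem outR_tmul (α : A →ₐ[k] Module.End k X) (β : T →ₐ[k] Module.End k M) (a : A) (t : T)
    (x : X) (m : M) : outR α β (a ⊗ₜ t) (x ⊗ₜ m) = (α a x) ⊗ₜ (β t m) := rfl

theorem eqv_of_tmul {ρ : A ⊗[k] T →ₐ[k] Module.End k X} {σ : A ⊗[k] T →ₐ[k] Module.End k Y}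
    {f : X →ₗ[k] Y} (h : ∀ a t x, f (ρ (a ⊗ₜ t) x) = σ (a ⊗ₜ t) (f x)) : Eqv ρ σ f := by
  intro b x
  induction b using TensorProduct.induction_on with
  | zero => simp
  | tmul a t => exact h a t x
  | add b c hb hc => simp only [map_add, LinearMap.add_apply, hb, hc]

theorem eqv_of_tmul2 {α : A →ₐ[k] Module.End k X} {β : T →ₐ[k] Module.End k M}
    {σ : A ⊗[k] T →ₐ[k] Module.End k Y}
    {f : X ⊗[k] M →ₗ[k] Y} (h : ∀ a t x m, f ((α a x) ⊗ₜ (β t m)) = σ (a ⊗ₜ t) (f (x ⊗ₜ m))) :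
    Eqv (outR α β) σ f := by
  refine eqv_of_tmul fun a t z => ?_
  induction z using TensorProduct.induction_on with
  | zero => simp
  | tmul x m => exact h a t x m
  | add b c hb hc => simp only [map_add, hb, hc]

theorem outR_lTensor {α : A →ₐ[k] Module.End k X} {β : T →ₐ[k] Module.End k M}
    {γ : T →ₐ[k] Module.End k N} {f : M →ₗ[k] N} (h : Eqv β γ f) :
    Eqv (outR α β) (outR α γ) (f.lTensor X) :=
  eqv_of_tmul2 fun a t x m => by
    rw [LinearMap.lTensor_tmul, LinearMap.lTensor_tmul, outR_tmul, h]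

theorem outR_free (Z : Type) :
    PDr (outR (Algebra.lmul k A) (frR k T Z)) 1 := by
  classical
  refine (pdr_free (k := k) (B := A ⊗[k] T) Z).retract
    (TensorProduct.finsuppRight k k A T Z).toLinearMap
    (TensorProduct.finsuppRight k k A T Z).symm.toLinearMap ?_ ?_ ?_
  · refine eqv_of_tmul2 fun a t x f => ?_
    induction f using Finsupp.induction_linear with
    | zero => simp
    | add f g hf hg => simp only [map_add, TensorProduct.tmul_add, hf, hg]
    | single z c =>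
      rw [frR_single, LinearEquiv.coe_coe, TensorProduct.finsuppRight_tmul_single,
        TensorProduct.finsuppRight_tmul_single, frR_single, Algebra.TensorProduct.tmul_mul_tmul]
      rfl
  · refine eqv_of_tmul fun a t g => ?_
    induction g using Finsupp.induction_linear with
    | zero => simp
    | add f g hf hg => simp only [map_add, hf, hg]
    | single z c =>
      induction c using TensorProduct.induction_on with
      | zero => simp
      | add b c hb hc => simp only [Finsupp.single_add, map_add, hb, hc]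
      | tmul x y =>
        rw [frR_single, LinearEquiv.coe_coe, Algebra.TensorProduct.tmul_mul_tmul,
          TensorProduct.finsuppRight_symm_apply_single,
          TensorProduct.finsuppRight_symm_apply_single, outR_tmul, frR_single]
        rfl
  · intro v
    simp

theorem part0 (m : ℕ) : ∀ (N : Type) [AddCommGroup N] [Module k N]
    (β : T →ₐ[k] Module.End k N), PDr β (m + 1) → PDr (outR (Algebra.lmul k A) β) (m + 1) := by
  induction m with
  | zero =>
    intro N _ _ β h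
    obtain ⟨s, hs, hs'⟩ := exists_section h
    refine (outR_free N).retract (s.lTensor A) ((fpi β).lTensor A) (outR_lTensor hs)
      (outR_lTensor (fpi_eqv β)) fun v => ?_
    rw [← LinearMap.comp_apply, ← LinearMap.lTensor_comp]
    have : (fpi β) ∘ₗ s = LinearMap.id := LinearMap.ext hs'
    rw [this, LinearMap.lTensor_id]
    rfl
  | succ m ih =>
    intro N _ _ β h
    obtain ⟨K, _, _, κ, i, hi, hinj, hex⟩ := exists_ker (fpi β) (fpi_eqv β)
    have h1 : PDr κ (m + 1) :=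
      (ses_both i (fpi β) hi (fpi_eqv β) hinj (fpi_surj β) hex (m + 1)).2
        ((pdr_free N).mono (by omega)) h
    have h2 := ih K κ h1
    exact (ses_both (i.lTensor A) ((fpi β).lTensor A)
      (outR_lTensor hi) (outR_lTensor (fpi_eqv β))
      (Module.Flat.lTensor_preserves_injective_linearMap _ hinj)
      (LinearMap.lTensor_surjective _ (fpi_surj β))
      (lTensor_exact A hex (fpi_surj β)) (m + 1)).1 h2 ((outR_free N).mono (by omega))

end out

section Q

variable {k A T : Type} [Field k] [Ring A] [Algebra k A] [Ring T] [Algebra k T]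
variable {X X' X'' M : Type} [AddCommGroup X] [Module k X] [AddCommGroup X'] [Module k X']
  [AddCommGroup X''] [Module k X''] [AddCommGroup M] [Module k M]

/-- the right action of `A` on a bimodule -/
def rgt (γ : Gam k A →ₐ[k] Module.End k X) : Aᵐᵒᵖ →ₐ[k] Module.End k X :=
  γ.comp (Algebra.TensorProduct.includeRight : Aᵐᵒᵖ →ₐ[k] A ⊗[k] Aᵐᵒᵖ)

theorem rgt_apply (γ : Gam k A →ₐ[k] Module.End k X) (a : Aᵐᵒᵖ) (x : X) :
    rgt γ a x = γ ((1 : A) ⊗ₜ a) x := rfl

theorem Eqv.rgt {γ : Gam k A →ₐ[k] Module.End k X} {γ' : Gam k A →ₐ[k] Module.End k X'}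
    {f : X →ₗ[k] X'} (h : Eqv γ γ' f) : Eqv (rgt γ) (rgt γ') f := fun _ _ => h _ _

/-- the action of `A ⊗ T` on `X ⊗ M` -/
noncomputable def act (γ : Gam k A →ₐ[k] Module.End k X) (μ : A ⊗[k] T →ₐ[k] Module.End k M) :
    A ⊗[k] T →ₐ[k] Module.End k (X ⊗[k] M) :=
  outR (γ.comp (Algebra.TensorProduct.includeLeft : A →ₐ[k] A ⊗[k] Aᵐᵒᵖ))
    (μ.comp (Algebra.TensorProduct.includeRight : T →ₐ[k] A ⊗[k] T))

theorem act_tmul (γ : Gam k A →ₐ[k] Module.End k X) (μ : A ⊗[k] T →ₐ[k] Module.End k M)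
    (a : A) (t : T) (x : X) (m : M) :
    act γ μ (a ⊗ₜ t) (x ⊗ₜ m) = (γ (a ⊗ₜ 1) x) ⊗ₜ (μ (1 ⊗ₜ t) m) := rfl

/-- the relations `x a ⊗ m = x ⊗ a m` -/
def relW (γ : Gam k A →ₐ[k] Module.End k X) (μ : A ⊗[k] T →ₐ[k] Module.End k M) :
    Submodule k (X ⊗[k] M) :=
  Submodule.span k {z | ∃ (a : A) (x : X) (m : M),
    z = (γ (1 ⊗ₜ MulOpposite.op a) x) ⊗ₜ m - x ⊗ₜ (μ (a ⊗ₜ 1) m)}

theorem relW_mem (γ : Gam k A →ₐ[k] Module.End k X) (μ : A ⊗[k] T →ₐ[k] Module.End k M)
    (a : A) (x : X) (m : M) :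
    (γ (1 ⊗ₜ MulOpposite.op a) x) ⊗ₜ m - x ⊗ₜ (μ (a ⊗ₜ 1) m) ∈ relW γ μ :=
  Submodule.subset_span ⟨a, x, m, rfl⟩

theorem relW_stable (γ : Gam k A →ₐ[k] Module.End k X) (μ : A ⊗[k] T →ₐ[k] Module.End k M) :
    ∀ b, ∀ v ∈ relW γ μ, act γ μ b v ∈ relW γ μ := by
  intro b v hv
  induction b using TensorProduct.induction_on with
  | zero => simp
  | add b c hb hc =>
    rw [map_add]
    exact (relW γ μ).add_mem hb hc
  | tmul a t =>
    unfold relW at hv
    induction hv using Submodule.span_induction with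
    | zero => simp
    | add x y _ _ hx hy =>
      rw [map_add]
      exact (relW γ μ).add_mem hx hy
    | smul c x _ hx =>
      rw [map_smul]
      exact (relW γ μ).smul_mem c hx
    | mem z hz =>
      obtain ⟨b, x, m, rfl⟩ := hz
      rw [map_sub, act_tmul, act_tmul]
      have h1 : γ (a ⊗ₜ 1) (γ (1 ⊗ₜ MulOpposite.op b) x)
          = γ (1 ⊗ₜ MulOpposite.op b) (γ (a ⊗ₜ 1) x) := by
        rw [← Module.End.mul_apply, ← Module.End.mul_apply, ← map_mul, ← map_mul,
          Algebra.TensorProduct.tmul_mul_tmul, Algebra.TensorProduct.tmul_mul_tmul]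
        simp
      have h2 : μ (1 ⊗ₜ t) (μ (b ⊗ₜ 1) m) = μ (b ⊗ₜ 1) (μ (1 ⊗ₜ t) m) := by
        rw [← Module.End.mul_apply, ← Module.End.mul_apply, ← map_mul, ← map_mul,
          Algebra.TensorProduct.tmul_mul_tmul, Algebra.TensorProduct.tmul_mul_tmul]
        simp
      rw [h1, h2]
      exact relW_mem γ μ b _ _

/-- `X ⊗_A M` -/
abbrev QM (γ : Gam k A →ₐ[k] Module.End k X) (μ : A ⊗[k] T →ₐ[k] Module.End k M) : Type :=
  (X ⊗[k] M) ⧸ relW γ μ

/-- the class of `x ⊗ m` -/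
def cl (γ : Gam k A →ₐ[k] Module.End k X) (μ : A ⊗[k] T →ₐ[k] Module.End k M) :
    X ⊗[k] M →ₗ[k] QM γ μ := (relW γ μ).mkQ

theorem cl_rel (γ : Gam k A →ₐ[k] Module.End k X) (μ : A ⊗[k] T →ₐ[k] Module.End k M)
    (a : A) (x : X) (m : M) :
    cl γ μ ((γ (1 ⊗ₜ MulOpposite.op a) x) ⊗ₜ m) = cl γ μ (x ⊗ₜ (μ (a ⊗ₜ 1) m)) :=
  (Submodule.Quotient.eq _).2 (relW_mem γ μ a x m)

/-- the action on `X ⊗_A M` -/
noncomputable def qact (γ : Gam k A →ₐ[k] Module.End k X) (μ : A ⊗[k] T →ₐ[k] Module.End k M) :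
    A ⊗[k] T →ₐ[k] Module.End k (QM γ μ) := quoRep (act γ μ) (relW γ μ) (relW_stable γ μ)

theorem qact_cl (γ : Gam k A →ₐ[k] Module.End k X) (μ : A ⊗[k] T →ₐ[k] Module.End k M)
    (b : A ⊗[k] T) (z : X ⊗[k] M) : qact γ μ b (cl γ μ z) = cl γ μ (act γ μ b z) := rfl

theorem QM_ext {P : Type} [AddCommGroup P] [Module k P] {γ : Gam k A →ₐ[k] Module.End k X}
    {μ : A ⊗[k] T →ₐ[k] Module.End k M} {F G : QM γ μ →ₗ[k] P}
    (h : ∀ x m, F (cl γ μ (x ⊗ₜ m)) = G (cl γ μ (x ⊗ₜ m))) : F = G :=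
  Submodule.linearMap_qext _ (TensorProduct.ext' h)

theorem eqv_QM {P : Type} [AddCommGroup P] [Module k P] {γ : Gam k A →ₐ[k] Module.End k X}
    {μ : A ⊗[k] T →ₐ[k] Module.End k M} {σ : A ⊗[k] T →ₐ[k] Module.End k P}
    {F : QM γ μ →ₗ[k] P}
    (h : ∀ a t x m, F (cl γ μ ((γ (a ⊗ₜ 1) x) ⊗ₜ (μ (1 ⊗ₜ t) m)))
      = σ (a ⊗ₜ t) (F (cl γ μ (x ⊗ₜ m)))) : Eqv (qact γ μ) σ F := by
  refine eqv_of_tmul fun a t z => ?_
  have : F ∘ₗ (qact γ μ (a ⊗ₜ t)) = (σ (a ⊗ₜ t)) ∘ₗ F := QM_ext fun x m => by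
    rw [LinearMap.comp_apply, LinearMap.comp_apply, qact_cl, act_tmul]
    exact h a t x m
  exact LinearMap.congr_fun this z

/-- maps out of `X ⊗_A M` -/
def qlift {P : Type} [AddCommGroup P] [Module k P] (γ : Gam k A →ₐ[k] Module.End k X)
    (μ : A ⊗[k] T →ₐ[k] Module.End k M) (f : X ⊗[k] M →ₗ[k] P)
    (h : ∀ a x m, f ((γ (1 ⊗ₜ MulOpposite.op a) x) ⊗ₜ m) = f (x ⊗ₜ (μ (a ⊗ₜ 1) m))) :
    QM γ μ →ₗ[k] P :=
  (relW γ μ).liftQ f (Submodule.span_le.2 (by
    rintro _ ⟨a, x, m, rfl⟩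
    change f _ = 0
    rw [map_sub, h, sub_self]))

theorem qlift_cl {P : Type} [AddCommGroup P] [Module k P] (γ : Gam k A →ₐ[k] Module.End k X)
    (μ : A ⊗[k] T →ₐ[k] Module.End k M) (f : X ⊗[k] M →ₗ[k] P)
    (h : ∀ a x m, f ((γ (1 ⊗ₜ MulOpposite.op a) x) ⊗ₜ m) = f (x ⊗ₜ (μ (a ⊗ₜ 1) m)))
    (z : X ⊗[k] M) : qlift γ μ f h (cl γ μ z) = f z := rfl

/-- functoriality in right linear maps -/
noncomputable def Qmap {γ : Gam k A →ₐ[k] Module.End k X} {γ' : Gam k A →ₐ[k] Module.End k X'}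
    (μ : A ⊗[k] T →ₐ[k] Module.End k M) (f : X →ₗ[k] X') (hf : Eqv (rgt γ) (rgt γ') f) :
    QM γ μ →ₗ[k] QM γ' μ :=
  qlift γ μ ((cl γ' μ) ∘ₗ (f.rTensor M)) (fun a x m => by
    rw [LinearMap.comp_apply, LinearMap.comp_apply, LinearMap.rTensor_tmul,
      LinearMap.rTensor_tmul, ← cl_rel]
    have := hf (MulOpposite.op a) x
    rw [rgt_apply, rgt_apply] at this
    rw [this])

theorem Qmap_cl {γ : Gam k A →ₐ[k] Module.End k X} {γ' : Gam k A →ₐ[k] Module.End k X'}
    (μ : A ⊗[k] T →ₐ[k] Module.End k M) (f : X →ₗ[k] X') (hf : Eqv (rgt γ) (rgt γ') f)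
    (x : X) (m : M) : Qmap μ f hf (cl γ μ (x ⊗ₜ m)) = cl γ' μ (f x ⊗ₜ m) := rfl

theorem Qmap_eqv {γ : Gam k A →ₐ[k] Module.End k X} {γ' : Gam k A →ₐ[k] Module.End k X'}
    (μ : A ⊗[k] T →ₐ[k] Module.End k M) (f : X →ₗ[k] X') (hf : Eqv γ γ' f) :
    Eqv (qact γ μ) (qact γ' μ) (Qmap μ f hf.rgt) :=
  eqv_QM fun a t x m => by
    rw [Qmap_cl, Qmap_cl, qact_cl, act_tmul, hf]

theorem Qmap_comp_id {γ : Gam k A →ₐ[k] Module.End k X} {γ' : Gam k A →ₐ[k] Module.End k X'}
    (μ : A ⊗[k] T →ₐ[k] Module.End k M) (f : X →ₗ[k] X') (hf : Eqv (rgt γ) (rgt γ') f)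
    (g : X' →ₗ[k] X) (hg : Eqv (rgt γ') (rgt γ) g) (h : ∀ x, g (f x) = x) (z : QM γ μ) :
    Qmap μ g hg (Qmap μ f hf z) = z := by
  have : (Qmap μ g hg) ∘ₗ (Qmap μ f hf) = LinearMap.id := QM_ext fun x m => by
    rw [LinearMap.comp_apply, Qmap_cl, Qmap_cl, h]
    rfl
  exact LinearMap.congr_fun this z

theorem exists_split {K P : Type} [AddCommGroup K] [Module k K] [AddCommGroup P] [Module k P]
    {κ : Aᵐᵒᵖ →ₐ[k] Module.End k K} {π : Aᵐᵒᵖ →ₐ[k] Module.End k P}
    {ξ : Aᵐᵒᵖ →ₐ[k] Module.End k X} (i : K →ₗ[k] P) (p : P →ₗ[k] X) (hi : Eqv κ π i)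
    (hp : Eqv π ξ p) (inj : Function.Injective i) (ex : Function.Exact i p)
    (s : X →ₗ[k] P) (hs : Eqv ξ π s) (hps : ∀ x, p (s x) = x) :
    ∃ r : P →ₗ[k] K, Eqv π κ r ∧ (∀ v, i (r v) + s (p v) = v) ∧ ∀ x, r (i x) = x := by
  have h1 : ∀ v, ∃ w, i w = v - s (p v) := fun v => by
    have : p (v - s (p v)) = 0 := by rw [map_sub, hps, sub_self]
    exact (ex _).1 this
  choose r hr using h1
  refine ⟨{ toFun := r, map_add' := ?_, map_smul' := ?_ }, ?_, ?_, ?_⟩
  · intro x y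
    apply inj
    rw [map_add, hr, hr, hr, map_add, map_add]
    abel
  · intro c x
    apply inj
    rw [map_smul, hr, hr, map_smul, map_smul, RingHom.id_apply, smul_sub]
  · intro b v
    apply inj
    change i (r (π b v)) = i (κ b (r v))
    rw [hi, hr, hr, map_sub, hp, hs]
  · intro v
    change i (r v) + s (p v) = v
    rw [hr, sub_add_cancel]
  · intro x
    apply inj
    change i (r (i x)) = i x
    rw [hr, (ex (i x)).2 ⟨x, rfl⟩, map_zero, sub_zero]

/-- the sequence `X ⊗_A M` is exact -/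
theorem Q_ses {K P : Type} [AddCommGroup K] [Module k K] [AddCommGroup P] [Module k P]
    {κ : Gam k A →ₐ[k] Module.End k K} {π : Gam k A →ₐ[k] Module.End k P}
    {ξ : Gam k A →ₐ[k] Module.End k X} (μ : A ⊗[k] T →ₐ[k] Module.End k M)
    (i : K →ₗ[k] P) (p : P →ₗ[k] X) (hi : Eqv κ π i)
    (hp : Eqv π ξ p) (ex : Function.Exact i p)
    (s : X →ₗ[k] P) (hs : Eqv (rgt ξ) (rgt π) s) (hps : ∀ x, p (s x) = x)
    (r : P →ₗ[k] K) (hr : Eqv (rgt π) (rgt κ) r) (hrs : ∀ v, i (r v) + s (p v) = v)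
    (hri : ∀ x, r (i x) = x) (n : ℕ) (h1 : PDr (qact κ μ) n) (h2 : PDr (qact π μ) (n + 1)) :
    PDr (qact ξ μ) (n + 1) := by
  have e1 := Qmap_comp_id μ i hi.rgt r hr hri
  have e2 := Qmap_comp_id μ s hs p hp.rgt hps
  refine (ses_both (Qmap μ i hi.rgt) (Qmap μ p hp.rgt) (Qmap_eqv μ i hi) (Qmap_eqv μ p hp)
    (Function.LeftInverse.injective e1) (Function.RightInverse.surjective e2) ?_ n).1 h1 h2
  have e3 : (Qmap μ p hp.rgt) ∘ₗ (Qmap μ i hi.rgt) = 0 := QM_ext fun x m => by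
    rw [LinearMap.comp_apply, Qmap_cl, Qmap_cl, (ex (i x)).2 ⟨x, rfl⟩, TensorProduct.zero_tmul,
      map_zero]
    rfl
  have e4 : (Qmap μ i hi.rgt) ∘ₗ (Qmap μ r hr) + (Qmap μ s hs) ∘ₗ (Qmap μ p hp.rgt)
      = LinearMap.id := QM_ext fun x m => by
    rw [LinearMap.add_apply, LinearMap.comp_apply, LinearMap.comp_apply, Qmap_cl, Qmap_cl,
      Qmap_cl, Qmap_cl, ← map_add, ← TensorProduct.add_tmul, hrs]
    rfl
  intro y
  constructor
  · intro hy
    refine ⟨Qmap μ r hr y, ?_⟩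
    have := LinearMap.congr_fun e4 y
    rw [LinearMap.add_apply, LinearMap.comp_apply, LinearMap.comp_apply, hy, map_zero,
      add_zero] at this
    exact this
  · rintro ⟨z, rfl⟩
    exact LinearMap.congr_fun e3 z

end Q

section FG

variable {k A Y : Type} [Field k] [Ring A] [Algebra k A]

variable (k A Y) in
/-- the free bimodule -/
abbrev FG : Type := Fr (Gam k A) Y

variable (k A Y) in
/-- the free bimodule -/
noncomputable abbrev frG : Gam k A →ₐ[k] Module.End k (FG k A Y) := frW k (Gam k A) Y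

variable (k) in
/-- elements of the free bimodule -/
noncomputable def bsg (y : Y) (a : A) (b : Aᵐᵒᵖ) : FG k A Y :=
  (Finsupp.single y (a ⊗ₜ[k] b) : Y →₀ Gam k A)

theorem frG_bsg (a c : A) (b d : Aᵐᵒᵖ) (y : Y) :
    frG k A Y (a ⊗ₜ b) (bsg k y c d) = bsg k y (a * c) (b * d) := by
  have h := frR_single (k := k) (B := Gam k A) (a ⊗ₜ[k] b) y (c ⊗ₜ[k] d)
  rw [Algebra.TensorProduct.tmul_mul_tmul] at h
  exact h

theorem bsg_add (y : Y) (a a' : A) (b : Aᵐᵒᵖ) : bsg k y (a + a') b = bsg k y a b + bsg k y a' b := by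
  change (Finsupp.single y ((a + a') ⊗ₜ[k] b) : Y →₀ Gam k A) =
    (Finsupp.single y (a ⊗ₜ[k] b) : Y →₀ Gam k A) + Finsupp.single y (a' ⊗ₜ[k] b)
  rw [TensorProduct.add_tmul, Finsupp.single_add]

theorem bsg_smul (y : Y) (c : k) (a : A) (b : Aᵐᵒᵖ) : bsg k y (c • a) b = c • bsg k y a b := by
  change (Finsupp.single y ((c • a) ⊗ₜ[k] b) : Y →₀ Gam k A) =
    c • (Finsupp.single y (a ⊗ₜ[k] b) : Y →₀ Gam k A)
  rw [← TensorProduct.smul_tmul', Finsupp.smul_single]

theorem FG_ind {P : FG k A Y → Prop} (h0 : P 0) (h1 : ∀ x y, P x → P y → P (x + y))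
    (h2 : ∀ y a b, P (bsg k y a b)) (x : FG k A Y) : P x := by
  refine Finsupp.induction_linear (motive := P) x h0 h1 fun y c => ?_
  induction c using TensorProduct.induction_on with
  | zero =>
    rw [Finsupp.single_zero]
    exact h0
  | tmul a b => exact h2 y a b
  | add c d hc hd =>
    rw [Finsupp.single_add]
    exact h1 _ _ hc hd

/-- linear maps out of the free bimodule -/
noncomputable def FGlift {U : Type} [AddCommMonoid U] [Module k U]
    (f : Y → A →ₗ[k] Aᵐᵒᵖ →ₗ[k] U) : FG k A Y →ₗ[k] U :=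
  (Finsupp.lsum k (fun y => TensorProduct.lift (f y)) : (Y →₀ Gam k A) →ₗ[k] U)

theorem FGlift_bsg {U : Type} [AddCommMonoid U] [Module k U]
    (f : Y → A →ₗ[k] Aᵐᵒᵖ →ₗ[k] U) (y : Y) (a : A) (b : Aᵐᵒᵖ) :
    FGlift f (bsg k y a b) = f y a b := by
  change (Finsupp.lsum k (fun y => TensorProduct.lift (f y)) : (Y →₀ Gam k A) →ₗ[k] U)
    (Finsupp.single y (a ⊗ₜ[k] b)) = _
  rw [Finsupp.lsum_single, TensorProduct.lift.tmul]

end FG

section RP

variable {k A T : Type} [Field k] [Ring A] [Algebra k A] [Ring T] [Algebra k T]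
variable {X X' M : Type} [AddCommGroup X] [Module k X] [AddCommGroup X'] [Module k X']
  [AddCommGroup M] [Module k M]

/-- projective right modules, by the lifting property -/
def RP (δ : Aᵐᵒᵖ →ₐ[k] Module.End k X) : Prop :=
  ∀ (Z Z' : Type) [AddCommGroup Z] [Module k Z] [AddCommGroup Z'] [Module k Z']
    (ζ : Aᵐᵒᵖ →ₐ[k] Module.End k Z) (ζ' : Aᵐᵒᵖ →ₐ[k] Module.End k Z') (g : Z →ₗ[k] Z'),
    Eqv ζ ζ' g → Function.Surjective g → ∀ u : X →ₗ[k] Z', Eqv δ ζ' u →
      ∃ v : X →ₗ[k] Z, Eqv δ ζ v ∧ ∀ x, g (v x) = u x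

theorem RP.retract {δ : Aᵐᵒᵖ →ₐ[k] Module.End k X} {δ' : Aᵐᵒᵖ →ₐ[k] Module.End k X'}
    (h : RP δ) (i : X' →ₗ[k] X) (p : X →ₗ[k] X') (hi : Eqv δ' δ i) (hp : Eqv δ δ' p)
    (hpi : ∀ x, p (i x) = x) : RP δ' := by
  intro Z Z' _ _ _ _ ζ ζ' g hg hs u hu
  obtain ⟨v, hv, hgv⟩ := h Z Z' ζ ζ' g hg hs (u ∘ₗ p) (fun b x => by
    rw [LinearMap.comp_apply, LinearMap.comp_apply, hp, hu])
  refine ⟨v ∘ₗ i, fun b x => ?_, fun x => ?_⟩
  · rw [LinearMap.comp_apply, LinearMap.comp_apply, hi, hv]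
  · rw [LinearMap.comp_apply, hgv, LinearMap.comp_apply, hpi]

theorem RP_free (Y : Type) :
    RP (rgt (frG k A Y)) := by
  intro Z Z' _ _ _ _ ζ ζ' g hg hs u hu
  let E : (Y →₀ A) →ₗ[k] FG k A Y := Finsupp.lsum k fun y =>
    { toFun := fun a => bsg k y a 1
      map_add' := fun a a' => bsg_add y a a' 1
      map_smul' := fun c a => bsg_smul y c a 1 }
  have hE : ∀ y a, E (Finsupp.single y a) = bsg k y a 1 := fun y a => by
    change Finsupp.lsum k _ (Finsupp.single y a) = _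
    rw [Finsupp.lsum_single]
    rfl
  obtain ⟨w, hw⟩ := Module.projective_lifting_property g (u ∘ₗ E) hs
  have hw' : ∀ f, g (w f) = u (E f) := fun f => LinearMap.congr_fun hw f
  let v : FG k A Y →ₗ[k] Z := FGlift fun y =>
    LinearMap.mk₂ k (fun (a : A) (b : Aᵐᵒᵖ) => ζ b (w (Finsupp.single y a)))
      (fun a a' b => by rw [Finsupp.single_add, map_add, map_add])
      (fun c a b => by rw [← Finsupp.smul_single, map_smul, map_smul])
      (fun a b b' => by rw [map_add, LinearMap.add_apply])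
      (fun c a b => by rw [map_smul, LinearMap.smul_apply])
  have hv : ∀ y a b, v (bsg k y a b) = ζ b (w (Finsupp.single y a)) := by
    intro y a b
    change FGlift _ (bsg k y a b) = _
    rw [FGlift_bsg, LinearMap.mk₂_apply]
  refine ⟨v, fun b x => ?_, fun x => ?_⟩
  · induction x using FG_ind with
    | h0 => simp only [map_zero]
    | h1 f g hf hg => simp only [map_add, hf, hg]
    | h2 y a d =>
      rw [rgt_apply, frG_bsg, one_mul, hv, hv, map_mul]
      rfl
  · induction x using FG_ind with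
    | h0 => simp only [map_zero]
    | h1 f g hf hg => simp only [map_add, hf, hg]
    | h2 y a d =>
      rw [hv, hg, hw', hE, ← hu, rgt_apply, frG_bsg, one_mul, mul_one]

theorem RP_self :
    RP (rgt (Algebra.lsmul k k (RBi A) : Gam k A →ₐ[k] Module.End k (RBi A))) := by
  intro Z Z' _ _ _ _ ζ ζ' g hg hs u hu
  obtain ⟨z, hz⟩ := hs (u (toB (1 : A)))
  let v : RBi A →ₗ[k] Z :=
    { toFun := fun x : A => ζ (MulOpposite.op x) z
      map_add' := fun x y : A => by
        rw [← LinearMap.add_apply, ← map_add]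
        rfl
      map_smul' := fun c (x : A) => by
        rw [RingHom.id_apply, ← LinearMap.smul_apply, ← map_smul]
        rfl }
  have hv : ∀ x : A, v (toB x) = ζ (MulOpposite.op x) z := fun _ => rfl
  have hr : ∀ (b x : A), rgt (Algebra.lsmul k k (RBi A) : Gam k A →ₐ[k] Module.End k (RBi A))
      (MulOpposite.op b) (toB x) = toB (x * b) := by
    intro b x
    rw [rgt_apply]
    change ((1 : A) ⊗ₜ[k] MulOpposite.op b : Gam k A) • toB x = _
    rw [rbi_smul, one_mul]
  refine ⟨v, fun b x => ?_, fun x => ?_⟩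
  · have h1 := hr b.unop x
    rw [MulOpposite.op_unop] at h1
    change v (rgt (Algebra.lsmul k k (RBi A) : Gam k A →ₐ[k] Module.End k (RBi A)) b (toB x))
      = ζ b (v (toB x))
    rw [h1, hv, hv, MulOpposite.op_mul, MulOpposite.op_unop, map_mul]
    rfl
  · change g (v (toB x)) = u (toB x)
    have h1 := hr x 1
    rw [one_mul] at h1
    rw [hv, hg, hz, ← hu, h1]

end RP

section free

variable {k A T : Type} [Field k] [Ring A] [Algebra k A] [Ring T] [Algebra k T]
variable {M : Type} [AddCommGroup M] [Module k M]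

/-- finitely supported functions -/
noncomputable def finsRep (β : T →ₐ[k] Module.End k M) (Y : Type) :
    T →ₐ[k] Module.End k (Y →₀ M) where
  toFun t := Finsupp.mapRange.linearMap (β t)
  map_one' := by ext; simp
  map_mul' s t := by ext; simp
  map_zero' := by ext; simp
  map_add' s t := by ext; simp
  commutes' c := by ext; simp

theorem finsRep_single (β : T →ₐ[k] Module.End k M) (Y : Type) (t : T) (y : Y) (m : M) :
    finsRep β Y t (Finsupp.single y m) = Finsupp.single y (β t m) := by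
  change Finsupp.mapRange.linearMap (β t) (Finsupp.single y m) = _
  rw [Finsupp.mapRange.linearMap_apply, Finsupp.mapRange_single]

theorem mu_comm (μ : A ⊗[k] T →ₐ[k] Module.End k M) (b : A) (t : T) (m : M) :
    μ (1 ⊗ₜ t) (μ (b ⊗ₜ 1) m) = μ (b ⊗ₜ 1) (μ (1 ⊗ₜ t) m) := by
  rw [← Module.End.mul_apply, ← Module.End.mul_apply, ← map_mul, ← map_mul,
    Algebra.TensorProduct.tmul_mul_tmul, Algebra.TensorProduct.tmul_mul_tmul]
  simp

theorem mu_left (μ : A ⊗[k] T →ₐ[k] Module.End k M) (a b : A) (m : M) :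
    μ (a ⊗ₜ 1) (μ (b ⊗ₜ 1) m) = μ ((a * b) ⊗ₜ 1) m := by
  rw [← Module.End.mul_apply, ← map_mul, Algebra.TensorProduct.tmul_mul_tmul, mul_one]

theorem mu_split (μ : A ⊗[k] T →ₐ[k] Module.End k M) (a : A) (t : T) (m : M) :
    μ (a ⊗ₜ 1) (μ (1 ⊗ₜ t) m) = μ (a ⊗ₜ t) m := by
  rw [← Module.End.mul_apply, ← map_mul, Algebra.TensorProduct.tmul_mul_tmul, mul_one, one_mul]

/-- restriction of `μ` to `T` -/
noncomputable def muT (μ : A ⊗[k] T →ₐ[k] Module.End k M) : T →ₐ[k] Module.End k M :=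
  μ.comp (Algebra.TensorProduct.includeRight : T →ₐ[k] A ⊗[k] T)

theorem muT_apply (μ : A ⊗[k] T →ₐ[k] Module.End k M) (t : T) : muT μ t = μ (1 ⊗ₜ t) := rfl

theorem Q_free (μ : A ⊗[k] T →ₐ[k] Module.End k M) (Y : Type) (n : ℕ)
    (h : PDr (outR (Algebra.lmul k A) (finsRep (muT μ) Y)) n) :
    PDr (qact (frG k A Y) μ) n := by
  set L : Gam k A →ₐ[k] Module.End k (FG k A Y) := frG k A Y with hL
  have hLs : ∀ a b y c d, L (a ⊗ₜ b) (bsg k y c d) = bsg k y (a * c) (b * d) :=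
    fun a b y c d => frG_bsg a c b d y
  -- the map to `A ⊗ (Y →₀ M)`
  let i1 : FG k A Y →ₗ[k] M →ₗ[k] A ⊗[k] (Y →₀ M) := FGlift fun y =>
    LinearMap.mk₂ k
      (fun (a : A) (b : Aᵐᵒᵖ) => (TensorProduct.mk k A (Y →₀ M) a) ∘ₗ (Finsupp.lsingle y) ∘ₗ
        (μ (b.unop ⊗ₜ 1)))
      (fun a a' b => by rw [map_add, LinearMap.add_comp])
      (fun c a b => by rw [map_smul, LinearMap.smul_comp])
      (fun a b b' => by
        rw [MulOpposite.unop_add, TensorProduct.add_tmul, map_add, LinearMap.comp_add,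
          LinearMap.comp_add])
      (fun c a b => by
        rw [MulOpposite.unop_smul, ← TensorProduct.smul_tmul', map_smul, LinearMap.comp_smul,
          LinearMap.comp_smul])
  have hi1 : ∀ y a b m, i1 (bsg k y a b) m = a ⊗ₜ Finsupp.single y (μ (b.unop ⊗ₜ 1) m) := by
    intro y a b m
    change (FGlift _ (bsg k y a b) : M →ₗ[k] A ⊗[k] (Y →₀ M)) m = _
    rw [FGlift_bsg, LinearMap.mk₂_apply]
    rfl
  let i2 : FG k A Y ⊗[k] M →ₗ[k] A ⊗[k] (Y →₀ M) := TensorProduct.lift i1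
  have hi2 : ∀ y a b m, i2 (bsg k y a b ⊗ₜ m)
      = a ⊗ₜ Finsupp.single y (μ (b.unop ⊗ₜ 1) m) := fun y a b m => by
    rw [← hi1]
    rfl
  have hker : ∀ a x m, i2 ((L (1 ⊗ₜ MulOpposite.op a) x) ⊗ₜ m) = i2 (x ⊗ₜ (μ (a ⊗ₜ 1) m)) := by
    intro a x m
    induction x using FG_ind with
    | h0 => simp only [map_zero, TensorProduct.zero_tmul]
    | h1 f g hf hg => simp only [map_add, TensorProduct.add_tmul, hf, hg]
    | h2 y b d =>
      rw [hLs, one_mul, hi2, hi2, mu_left, MulOpposite.unop_mul, MulOpposite.unop_op]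
  let i : QM L μ →ₗ[k] A ⊗[k] (Y →₀ M) := qlift L μ i2 hker
  have hi : ∀ y a b m, i (cl L μ (bsg k y a b ⊗ₜ m))
      = a ⊗ₜ Finsupp.single y (μ (b.unop ⊗ₜ 1) m) := fun y a b m => by
    rw [← hi2]
    rfl
  -- the map back
  let p1 : A →ₗ[k] (Y →₀ M) →ₗ[k] QM L μ := LinearMap.mk₂ k
    (fun a f => f.sum fun y m => cl L μ (bsg k y a 1 ⊗ₜ m))
    (fun a a' f => by
      rw [← Finsupp.sum_add]
      refine Finsupp.sum_congr fun y _ => ?_
      rw [bsg_add, TensorProduct.add_tmul, map_add])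
    (fun c a f => by
      rw [Finsupp.smul_sum]
      refine Finsupp.sum_congr fun y _ => ?_
      rw [bsg_smul, ← TensorProduct.smul_tmul', map_smul])
    (fun a f f' => by
      rw [Finsupp.sum_add_index']
      · intro y
        rw [TensorProduct.tmul_zero, map_zero]
      · intro y m m'
        rw [TensorProduct.tmul_add, map_add])
    (fun c a f => by
      rw [Finsupp.sum_smul_index', Finsupp.smul_sum]
      · refine Finsupp.sum_congr fun y _ => ?_
        rw [TensorProduct.tmul_smul, map_smul]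
      · intro y
        rw [TensorProduct.tmul_zero, map_zero])
  let p : A ⊗[k] (Y →₀ M) →ₗ[k] QM L μ := TensorProduct.lift p1
  have hp : ∀ a y m, p (a ⊗ₜ Finsupp.single y m) = cl L μ (bsg k y a 1 ⊗ₜ m) := by
    intro a y m
    change (Finsupp.single y m).sum (fun y m => cl L μ (bsg k y a 1 ⊗ₜ m)) = _
    rw [Finsupp.sum_single_index]
    rw [TensorProduct.tmul_zero, map_zero]
  refine h.retract i p ?_ ?_ ?_
  · refine eqv_QM fun a t x m => ?_
    induction x using FG_ind with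
    | h0 => simp only [map_zero, TensorProduct.zero_tmul]
    | h1 f g hf hg => simp only [map_add, TensorProduct.add_tmul, hf, hg]
    | h2 y b d =>
      rw [hLs, one_mul, hi, hi, outR_tmul, finsRep_single, muT_apply, mu_comm]
      rfl
  · refine eqv_of_tmul2 fun a t x f => ?_
    induction f using Finsupp.induction_linear with
    | zero => simp only [map_zero, TensorProduct.tmul_zero]
    | add f g hf hg => simp only [map_add, TensorProduct.tmul_add, hf, hg]
    | single y m =>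
      rw [finsRep_single, hp, hp, qact_cl, act_tmul, hLs, mul_one]
      rfl
  · intro z
    have : p ∘ₗ i = LinearMap.id := QM_ext fun x m => by
      rw [LinearMap.comp_apply, LinearMap.id_apply]
      induction x using FG_ind with
      | h0 => simp only [map_zero, TensorProduct.zero_tmul]
      | h1 f g hf hg => simp only [map_add, TensorProduct.add_tmul, hf, hg]
      | h2 y b d =>
        rw [hi, hp, ← cl_rel, hLs, one_mul, mul_one, MulOpposite.op_unop]
    exact LinearMap.congr_fun this z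

end free

section main

variable {k A T : Type} [Field k] [Ring A] [Algebra k A] [Ring T] [Algebra k T]
variable {M : Type} [AddCommGroup M] [Module k M]

theorem claim (μ : A ⊗[k] T →ₐ[k] Module.End k M) (m : ℕ)
    (hF : ∀ Y : Type, PDr (outR (Algebra.lmul k A) (finsRep (muT μ) Y)) (m + 1)) (n : ℕ) :
    ∀ (X : Type) [AddCommGroup X] [Module k X] (γ : Gam k A →ₐ[k] Module.End k X),
      RP (rgt γ) → PDr γ (n + 1) → PDr (qact γ μ) (n + m + 1) := by
  induction n with
  | zero =>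
    intro X _ _ γ _ h
    obtain ⟨s, hs, hs'⟩ := exists_sectionW h
    have h1 := Q_free μ X (m + 1) (hF X)
    refine (h1.retract (Qmap μ s hs.rgt) (Qmap μ (fpw γ) (fpw_eqv γ).rgt) (Qmap_eqv μ s hs)
      (Qmap_eqv μ (fpw γ) (fpw_eqv γ)) (Qmap_comp_id μ s hs.rgt (fpw γ) (fpw_eqv γ).rgt
        hs')).mono (by omega)
  | succ n ih =>
    intro X _ _ γ hR h
    obtain ⟨K, _, _, κ, i, hi, hinj, hex⟩ := exists_ker (fpw γ) (fpw_eqv γ)
    obtain ⟨s, hs, hs'⟩ := hR _ _ _ _ (fpw γ) (fpw_eqv γ).rgt (fpw_surj γ) LinearMap.id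
      (fun _ _ => rfl)
    obtain ⟨r, hr, hrs, hri⟩ := exists_split i (fpw γ) hi.rgt (fpw_eqv γ).rgt hinj hex s hs hs'
    have hK : RP (rgt κ) := (RP_free X).retract i r hi.rgt hr hri
    have h1 : PDr κ (n + 1) :=
      (ses_both i (fpw γ) hi (fpw_eqv γ) hinj (fpw_surj γ) hex (n + 1)).2
        ((pdr_freeW X).mono (by omega)) h
    have h2 := ih K κ hK h1
    have h3 := Q_free μ X (m + 1) (hF X)
    have h4 := Q_ses μ i (fpw γ) hi (fpw_eqv γ) hex s hs hs' r hr hrs hri (n + m + 1) h2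
      (h3.mono (by omega))
    exact h4.mono (by omega)

theorem Q_self (μ : A ⊗[k] T →ₐ[k] Module.End k M) (n : ℕ)
    (h : PDr (qact (Algebra.lsmul k k (RBi A) : Gam k A →ₐ[k] Module.End k (RBi A)) μ) n) :
    PDr μ n := by
  set L : Gam k A →ₐ[k] Module.End k (RBi A) := Algebra.lsmul k k (RBi A) with hL
  have hLs : ∀ (a b x : A), L (a ⊗ₜ MulOpposite.op b) (toB x) = toB (a * x * b) := by
    intro a b x
    change ((a : A) ⊗ₜ[k] MulOpposite.op b : Gam k A) • toB x = _
    rw [rbi_smul]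
  have hL1 : ∀ (a x : A), L (a ⊗ₜ 1) (toB x) = toB (a * x) := by
    intro a x
    have := hLs a 1 x
    rw [MulOpposite.op_one, mul_one] at this
    exact this
  let i : M →ₗ[k] QM L μ := (cl L μ) ∘ₗ (TensorProduct.mk k (RBi A) M (toB 1))
  have hi : ∀ m, i m = cl L μ (toB 1 ⊗ₜ m) := fun m => rfl
  let p1 : RBi A →ₗ[k] M →ₗ[k] M :=
    { toFun := fun x : A => μ (x ⊗ₜ 1)
      map_add' := fun x y : A => by
        rw [← map_add, ← TensorProduct.add_tmul]
        rfl
      map_smul' := fun c (x : A) => by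
        rw [RingHom.id_apply, ← map_smul, TensorProduct.smul_tmul']
        rfl }
  let p2 : RBi A ⊗[k] M →ₗ[k] M := TensorProduct.lift p1
  have hp2 : ∀ (x : A) m, p2 (toB x ⊗ₜ m) = μ (x ⊗ₜ 1) m := fun x m => rfl
  let p : QM L μ →ₗ[k] M := qlift L μ p2 (fun a x m => by
    change p2 ((L (1 ⊗ₜ MulOpposite.op a) (toB x)) ⊗ₜ m) = p2 (toB x ⊗ₜ (μ (a ⊗ₜ 1) m))
    rw [hLs, one_mul, hp2, hp2, mu_left])
  have hp : ∀ (x : A) m, p (cl L μ (toB x ⊗ₜ m)) = μ (x ⊗ₜ 1) m := fun x m => rfl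
  refine h.retract i p ?_ ?_ ?_
  · refine eqv_of_tmul fun a t m => ?_
    rw [hi, hi, qact_cl, act_tmul, hL1, mul_one, ← mu_split, ← cl_rel, hLs, one_mul, one_mul]
  · refine eqv_QM fun a t x m => ?_
    have h1 : ∀ y : A, p (cl L μ ((L (a ⊗ₜ 1) (toB y)) ⊗ₜ (μ (1 ⊗ₜ t) m)))
        = μ (a ⊗ₜ t) (p (cl L μ (toB y ⊗ₜ m))) := fun y => by
      rw [hL1, hp, hp, ← mu_left, ← mu_comm, mu_split]
    exact h1 x
  · intro m
    rw [hi, hp, ← Algebra.TensorProduct.one_def, map_one]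
    rfl

theorem ga : StmtGA := by
  intro k A T _ _ _ _ _ n m hA hT M _ _
  let _ : Module k M := Module.compHom M (algebraMap k (A ⊗[k] T))
  have : IsScalarTower k (A ⊗[k] T) M := ⟨fun c b x => by
    change (c • b) • x = algebraMap k (A ⊗[k] T) c • b • x
    rw [Algebra.smul_def, mul_smul]⟩
  have hT' : ∀ (N : Type) [AddCommGroup N] [Module k N] (β : T →ₐ[k] Module.End k N),
      PDr β (m + 1) := by
    intro N _ _ β
    let mN : Module T N := Module.compHom N β.toRingHom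
    exact hT N
  rw [← pdr_lsmul (k := k)]
  refine Q_self _ _ ?_
  refine claim _ m (fun Y => part0 m _ _ (hT' _ _)) n _ _ RP_self ?_
  rw [pdr_lsmul]
  exact hA

end main

end Pool.Agent.Helper41.HD
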